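import Mathlib
import Pool.Agent.Lib.MP_350a38_co.Data

set_option autoImplicit false

/-! The Boolean check of the arrangement, evaluated by the kernel, and what it says. -/

namespace Pool.Agent.Lib.MP_350a38_co

def band (b x : Bool) : Bool := @Bool.rec (fun _ => Bool) false x b
def bor (b x : Bool) : Bool := @Bool.rec (fun _ => Bool) x true b
def bnot (b : Bool) : Bool := @Bool.rec (fun _ => Bool) true false b

theorem band_iff {b x : Bool} : band b x = true ↔ b = true ∧ x = true := by
  cases b <;> simp [band]
theorem bor_iff {b x : Bool} : bor b x = true ↔ b = true ∨ x = true := by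
  cases b <;> simp [bor]
theorem bnot_iff {b : Bool} : bnot b = true ↔ ¬ b = true := by
  cases b <;> simp [bnot]

/-- position of the crossing with `a` on line `x` -/
def pos (x a : Nat) : Nat :=
  Nat.land (Nat.shiftRight P (Nat.mul (nat_lit 8) (Nat.add (Nat.mul (nat_lit 64) x) a))) (nat_lit 255)

/-- line crossed by `x` at position `p` -/
def seq (x p : Nat) : Nat :=
  Nat.land (Nat.shiftRight S (Nat.mul (nat_lit 8) (Nat.add (Nat.mul (nat_lit 64) x) p))) (nat_lit 255)

def allb (f : Nat → Bool) (n : Nat) : Bool :=
  @Nat.rec (fun _ => Bool) true (fun m ih => band (f m) ih) n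

theorem allb_spec {f : Nat → Bool} {n : Nat} (h : allb f n = true) : ∀ m < n, f m = true := by
  induction n with
  | zero => intro m hm; omega
  | succ n ih =>
    have h' : band (f n) (allb f n) = true := h
    rw [band_iff] at h'
    intro m hm
    rcases Nat.lt_succ_iff_lt_or_eq.mp hm with h1 | h1
    · exact ih h'.2 m h1
    · rw [h1]; exact h'.1

def blt (a b : Nat) : Bool := Nat.ble (Nat.succ a) b

theorem blt_iff {a b : Nat} : blt a b = true ↔ a < b := by
  unfold blt
  rw [Nat.ble_eq]
  exact Iff.rfl

theorem beq_iff {a b : Nat} : Nat.beq a b = true ↔ a = b :=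
  ⟨Nat.eq_of_beq_eq_true, fun h => by rw [h]; exact Nat.beq_refl b⟩

/-- cyclic adjacency of two positions among `0, …, 62` -/
def adjb (a b : Nat) : Bool :=
  (fun d => bor (Nat.beq d (nat_lit 1)) (Nat.beq d (nat_lit 62)))
    (Nat.add (Nat.sub a b) (Nat.sub b a))

def Adj (a b : Nat) : Prop := a = b + 1 ∨ b = a + 1 ∨ a = b + 62 ∨ b = a + 62

theorem adjb_iff {a b : Nat} : adjb a b = true ↔ Adj a b := by
  unfold adjb Adj
  simp only [bor_iff, beq_iff]
  show a - b + (b - a) = 1 ∨ a - b + (b - a) = 62 ↔ _
  omega

/-- colour of a line: parity of its block of eight -/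
def colb (a : Nat) : Nat := Nat.land (nat_lit 8) a

def c3 (A B C D E F : Nat) (mono : Bool) : Bool :=
  band
    (bor (band (blt A B) (band (blt C D) (blt E F)))
         (band (blt B A) (band (blt D C) (blt F E))))
    (bor mono (bnot (band (adjb A B) (band (adjb C D) (adjb E F)))))

def chk3 (i j k : Nat) : Bool :=
  c3 (pos i j) (pos i k) (pos j i) (pos j k) (pos k i) (pos k j)
    (band (Nat.beq (colb i) (colb j)) (Nat.beq (colb j) (colb k)))

/-- all triples `i < j < k` with `lo ≤ k < hi` -/
def chkRange (lo n : Nat) : Bool :=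
  allb (fun k' => (fun k => allb (fun j => allb (fun i => chk3 i j k) j) k) (Nat.add lo k')) n

def chkSeq : Bool :=
  allb (fun x => band
    (allb (fun p => (fun y => band (Nat.beq (pos x y) p) (band (blt y (nat_lit 64)) (bnot (Nat.beq y x))))
      (seq x p)) (nat_lit 63))
    (allb (fun a => Nat.ble (pos x a) (nat_lit 62)) (nat_lit 64))) (nat_lit 64)

theorem chkSeq_ok : chkSeq = true := by decide +kernel

end Pool.Agent.Lib.MP_350a38_co
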