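import Pool.Agent.Lib.MP_350a38_co.Run

set_option autoImplicit false

/-! The chirotope of the arrangement: its basic properties, and adjacency of crossings around a mutation. -/

namespace Pool.Agent.Lib.MP_350a38_co

/-- sign of the triple `(x, a, b)` -/
def X (x a b : Nat) : ℤ :=
  Int.sign ((a : ℤ) - x) * Int.sign ((b : ℤ) - x) * Int.sign ((pos x b : ℤ) - pos x a)

theorem pos_ne {x a b : Nat} (hx : x < 64) (ha : a < 64) (hb : b < 64)
    (h1 : x ≠ a) (h2 : x ≠ b) (h3 : a ≠ b) : pos x a ≠ pos x b := by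
  rcases Nat.lt_or_gt_of_ne h1 with h1 | h1 <;> rcases Nat.lt_or_gt_of_ne h2 with h2 | h2 <;>
    rcases Nat.lt_or_gt_of_ne h3 with h3 | h3 <;> try omega
  · have := (key h1 h3 hb).1; omega
  · have := (key h2 h3 ha).1; omega
  · have := (key h2 h1 ha).1; omega
  · have := (key h1 h2 hb).1; omega
  · have := (key h3 h2 hx).1; omega
  · have := (key h3 h1 hx).1; omega

theorem sign_cast_pos {a x : Nat} (h : x < a) : Int.sign ((a : ℤ) - x) = 1 :=
  Int.sign_eq_one_of_pos (by omega)

theorem sign_cast_neg {a x : Nat} (h : a < x) : Int.sign ((a : ℤ) - x) = -1 :=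
  Int.sign_eq_neg_one_of_neg (by omega)

theorem sign_cases {a x : Nat} (h : x ≠ a) :
    Int.sign ((a : ℤ) - x) = 1 ∨ Int.sign ((a : ℤ) - x) = -1 := by
  rcases Nat.lt_or_gt_of_ne h with h | h
  · left; exact sign_cast_pos h
  · right; exact sign_cast_neg h

theorem X_pm {x a b : Nat} (hx : x < 64) (ha : a < 64) (hb : b < 64)
    (h1 : x ≠ a) (h2 : x ≠ b) (h3 : a ≠ b) : X x a b = 1 ∨ X x a b = -1 := by
  unfold X
  rcases sign_cases h1 with e1 | e1 <;> rcases sign_cases h2 with e2 | e2 <;>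
    rcases sign_cases (pos_ne hx ha hb h1 h2 h3) with e3 | e3 <;> rw [e1, e2, e3] <;> norm_num

theorem X_swap (x a b : Nat) : X x b a = - X x a b := by
  unfold X
  have h : ((pos x a : ℤ) - pos x b) = -((pos x b : ℤ) - pos x a) := by ring
  rw [h, Int.sign_neg]; ring

theorem X_self_left (x b : Nat) : X x x b = 0 := by
  unfold X; simp
theorem X_self_right (x a : Nat) : X x a x = 0 := by
  unfold X; simp
theorem X_self_mid (x a : Nat) : X x a a = 0 := by
  unfold X; simp

/-- swapping the first two arguments, sorted case -/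
theorem X_sorted {i j k : Nat} (hij : i < j) (hjk : j < k) (hk : k < 64) :
    X j i k = - X i j k ∧ X k i j = X i j k := by
  unfold X
  rw [sign_cast_pos hij, sign_cast_pos (hij.trans hjk), sign_cast_neg hij, sign_cast_pos hjk,
    sign_cast_neg (hij.trans hjk), sign_cast_neg hjk]
  rcases (key hij hjk hk).1 with ⟨h1, h2, h3⟩ | ⟨h1, h2, h3⟩
  · rw [sign_cast_pos h1, sign_cast_pos h2, sign_cast_pos h3]; norm_num
  · rw [sign_cast_neg h1, sign_cast_neg h2, sign_cast_neg h3]; norm_num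

theorem X_swap12 {a b c : Nat} (ha : a < 64) (hb : b < 64) (hc : c < 64) :
    X b a c = - X a b c := by
  rcases eq_or_ne a b with h | hab
  · subst h; rw [X_self_left]; simp
  rcases eq_or_ne a c with h | hac
  · subst h; rw [X_self_mid, X_self_right]; simp
  rcases eq_or_ne b c with h | hbc
  · subst h; rw [X_self_mid, X_self_right]; simp
  rcases Nat.lt_or_gt_of_ne hab with h1 | h1 <;> rcases Nat.lt_or_gt_of_ne hac with h2 | h2 <;>
    rcases Nat.lt_or_gt_of_ne hbc with h3 | h3 <;> try omega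
  · exact (X_sorted h1 h3 hc).1
  · -- a < c < b
    obtain ⟨e1, e2⟩ := X_sorted h2 h3 hb
    rw [e2, X_swap a c b]; ring
  · -- c < a < b
    obtain ⟨e1, e2⟩ := X_sorted h2 h1 hb
    have e3 := X_swap b c a
    have e4 := X_swap a c b
    rw [e3, e2, e4, e1]; ring
  · -- b < a < c
    obtain ⟨e1, e2⟩ := X_sorted h1 h2 hc
    rw [e1]; ring
  · -- b < c < a
    obtain ⟨e1, e2⟩ := X_sorted h3 h2 ha
    rw [e2, X_swap b c a]
  · -- c < b < a
    obtain ⟨e1, e2⟩ := X_sorted h3 h1 ha
    have e3 := X_swap b c a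
    have e4 := X_swap a c b
    rw [e3, e4, e2, e1]

/-- Plücker: the three signs cannot agree -/
theorem plucker {p q r s : ℤ} (h1 : p ≠ q) (h2 : r ≠ s)
    (e1 : Int.sign (q - p) * Int.sign (s - r) = -(Int.sign (r - p) * Int.sign (s - q)))
    (e2 : -(Int.sign (r - p) * Int.sign (s - q)) = Int.sign (s - p) * Int.sign (r - q)) : False := by
  rw [← Int.sign_mul, ← Int.sign_mul, ← Int.sign_neg] at e1
  rw [← Int.sign_mul, ← Int.sign_mul, ← Int.sign_neg] at e2
  have hid : (q - p) * (s - r) + (-((r - p) * (s - q))) + (s - p) * (r - q) = 0 := by ring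
  have hU : (q - p) * (s - r) ≠ 0 := mul_ne_zero (sub_ne_zero.mpr h1.symm) (sub_ne_zero.mpr h2.symm)
  generalize (q - p) * (s - r) = U at *
  generalize -((r - p) * (s - q)) = V at *
  generalize (s - p) * (r - q) = W at *
  rcases lt_or_gt_of_ne hU with h | h
  · rw [Int.sign_eq_neg_one_of_neg h] at e1
    have hV : V < 0 := Int.sign_eq_neg_one_iff_neg.mp e1.symm
    rw [← e1] at e2
    have hW : W < 0 := Int.sign_eq_neg_one_iff_neg.mp e2.symm
    omega
  · rw [Int.sign_eq_one_of_pos h] at e1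
    have hV : 0 < V := Int.sign_eq_one_iff_pos.mp e1.symm
    rw [← e1] at e2
    have hW : 0 < W := Int.sign_eq_one_iff_pos.mp e2.symm
    omega

theorem X_gp {x a b c d : Nat} (hxa : x ≠ a) (hxb : x ≠ b) (hxc : x ≠ c) (hxd : x ≠ d)
    (hab : pos x a ≠ pos x b) (hcd : pos x c ≠ pos x d) :
    ¬ (X x a b * X x c d = -(X x a c * X x b d) ∧
       -(X x a c * X x b d) = X x a d * X x b c) := by
  rintro ⟨e1, e2⟩
  unfold X at e1 e2
  have nz : ∀ {t : Nat}, x ≠ t → Int.sign ((t : ℤ) - x) ≠ 0 := by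
    intro t ht
    rcases sign_cases ht with h | h <;> rw [h] <;> norm_num
  have hE : Int.sign ((a : ℤ) - x) * Int.sign ((b : ℤ) - x) * Int.sign ((c : ℤ) - x) *
      Int.sign ((d : ℤ) - x) ≠ 0 :=
    mul_ne_zero (mul_ne_zero (mul_ne_zero (nz hxa) (nz hxb)) (nz hxc)) (nz hxd)
  refine plucker (p := (pos x a : ℤ)) (q := pos x b) (r := pos x c) (s := pos x d)
    (by exact_mod_cast hab) (by exact_mod_cast hcd) ?_ ?_
  · apply mul_left_cancel₀ hE; linear_combination e1
  · apply mul_left_cancel₀ hE; linear_combination e2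

/-- If flipping the triple `(x, a, b)` keeps the exchange condition for all `(x; a, b, l, m)`, then the crossings
with `a` and `b` are cyclically adjacent on line `x`. -/
theorem adj_of {x a b : Nat} (hx : x < 64) (ha : a < 64) (hb : b < 64)
    (h1 : x ≠ a) (h2 : x ≠ b) (h3 : a ≠ b)
    (H : ∀ l m : Nat, l < 64 → m < 64 → l ≠ x → l ≠ a → l ≠ b → m ≠ x → m ≠ a → m ≠ b → l ≠ m →
      ¬ (-(X x a b) * X x l m = -(X x a l * X x b m) ∧
         -(X x a l * X x b m) = X x a m * X x b l)) :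
    Adj (pos x a) (pos x b) := by
  by_contra hn
  have hne := pos_ne hx ha hb h1 h2 h3
  have la := pos_le hx ha
  have lb := pos_le hx hb
  unfold Adj at hn
  -- `l` strictly between, `m` outside
  obtain ⟨l, hl, hlx, hbet⟩ : ∃ l, l < 64 ∧ l ≠ x ∧
      ((pos x a < pos x l ∧ pos x l < pos x b) ∨ (pos x b < pos x l ∧ pos x l < pos x a)) := by
    rcases Nat.lt_or_gt_of_ne hne with h | h
    · obtain ⟨e1, e2, e3⟩ := seq_spec (x := x) (p := pos x a + 1) hx (by omega)
      exact ⟨_, e2, e3, by left; rw [e1]; omega⟩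
    · obtain ⟨e1, e2, e3⟩ := seq_spec (x := x) (p := pos x b + 1) hx (by omega)
      exact ⟨_, e2, e3, by right; rw [e1]; omega⟩
  obtain ⟨m, hm, hmx, hout⟩ : ∃ m, m < 64 ∧ m ≠ x ∧
      ((pos x m < pos x a ∧ pos x m < pos x b) ∨ (pos x b < pos x m ∧ pos x a < pos x m)) := by
    by_cases h0 : pos x a = 0 ∨ pos x b = 0
    · obtain ⟨e1, e2, e3⟩ := seq_spec (x := x) (p := 62) hx (by omega)
      exact ⟨_, e2, e3, by right; rw [e1]; omega⟩
    · obtain ⟨e1, e2, e3⟩ := seq_spec (x := x) (p := 0) hx (by omega)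
      exact ⟨_, e2, e3, by left; rw [e1]; omega⟩
  have hla : l ≠ a := by rintro rfl; omega
  have hlb : l ≠ b := by rintro rfl; omega
  have hma : m ≠ a := by rintro rfl; omega
  have hmb : m ≠ b := by rintro rfl; omega
  have hlm : l ≠ m := by rintro rfl; omega
  have t23 : -(X x a l * X x b m) = X x a m * X x b l := by
    have s1 : Int.sign ((pos x l : ℤ) - pos x a) = - Int.sign ((pos x l : ℤ) - pos x b) := by
      rcases hbet with ⟨u, v⟩ | ⟨u, v⟩
      · rw [sign_cast_pos u, sign_cast_neg v]; norm_num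
      · rw [sign_cast_pos u, sign_cast_neg v]
    have s2 : Int.sign ((pos x m : ℤ) - pos x a) = Int.sign ((pos x m : ℤ) - pos x b) := by
      rcases hout with ⟨u, v⟩ | ⟨u, v⟩
      · rw [sign_cast_neg u, sign_cast_neg v]
      · rw [sign_cast_pos u, sign_cast_pos v]
    unfold X
    rw [s1, s2]; ring
  have hg := X_gp (x := x) (a := a) (b := b) (c := l) (d := m) h1 h2 hlx.symm hmx.symm hne
    (pos_ne hx hl hm hlx.symm hmx.symm hlm)
  refine H l m hl hm hlx hla hlb hmx hma hmb hlm ⟨?_, t23⟩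
  have p1 := X_pm hx ha hb h1 h2 h3
  have p2 := X_pm hx hl hm hlx.symm hmx.symm hlm
  have p3 := X_pm hx ha hl h1 hlx.symm hla.symm
  have p4 := X_pm hx hb hm h2 hmx.symm hmb.symm
  have hg' : ¬ (X x a b * X x l m = -(X x a l * X x b m)) := fun h => hg ⟨h, t23⟩
  rcases p1 with e1 | e1 <;> rcases p2 with e2 | e2 <;> rcases p3 with e3 | e3 <;>
    rcases p4 with e4 | e4 <;> rw [e1, e2, e3, e4] at hg' ⊢ <;>
    first
      | (exfalso; apply hg'; norm_num; done)
      | norm_num

theorem Adj.symm {a b : Nat} (h : Adj a b) : Adj b a := by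
  unfold Adj at *; omega

/-- a bichromatic triple is not pairwise adjacent -/
theorem mono_of_adj {i j k : Nat} (hi : i < 64) (hj : j < 64) (hk : k < 64)
    (hij : i ≠ j) (hjk : j ≠ k) (hik : i ≠ k)
    (a1 : Adj (pos i j) (pos i k)) (a2 : Adj (pos j i) (pos j k)) (a3 : Adj (pos k i) (pos k j)) :
    col i = col j ∧ col j = col k := by
  rcases Nat.lt_or_gt_of_ne hij with h1 | h1 <;> rcases Nat.lt_or_gt_of_ne hjk with h2 | h2 <;>
    rcases Nat.lt_or_gt_of_ne hik with h3 | h3 <;> try omega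
  · exact (key h1 h2 hk).2.resolve_right (fun h => h ⟨a1, a2, a3⟩)
  · have := (key h3 h2 hj).2.resolve_right (fun h => h ⟨a1.symm, a3, a2⟩)
    exact ⟨this.1.trans this.2, this.2.symm⟩
  · have := (key h3 h1 hj).2.resolve_right (fun h => h ⟨a3, a1.symm, a2.symm⟩)
    exact ⟨this.2, this.2.symm.trans this.1.symm⟩
  · have := (key h1 h3 hk).2.resolve_right (fun h => h ⟨a2, a1, a3.symm⟩)
    exact ⟨this.1.symm, this.1.trans this.2⟩
  · have := (key h2 h3 hi).2.resolve_right (fun h => h ⟨a2.symm, a3.symm, a1⟩)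
    exact ⟨(this.1.trans this.2).symm, this.1⟩
  · have := (key h2 h1 hi).2.resolve_right (fun h => h ⟨a3.symm, a2.symm, a1.symm⟩)
    exact ⟨this.2.symm, this.1.symm⟩

end Pool.Agent.Lib.MP_350a38_co
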