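import Pool.Agent.Lib.MP_350a38_co.Check

set_option autoImplicit false

/-! Kernel evaluation of the check for all triples, and its meaning. -/

namespace Pool.Agent.Lib.MP_350a38_co

theorem chk_ok1 : chkRange 0 40 = true := by decide +kernel
theorem chk_ok2 : chkRange 40 12 = true := by decide +kernel
theorem chk_ok3 : chkRange 52 12 = true := by decide +kernel

def col (a : Nat) : Bool := decide ((a / 8) % 2 = 1)

theorem colb_eq {a b : Nat} (ha : a < 64) (hb : b < 64) (h : colb a = colb b) : col a = col b := by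
  have h1 : ∀ a < 64, ∀ b < 64, colb a = colb b → col a = col b := by decide +kernel
  exact h1 a ha b hb h

theorem range_spec {lo n : Nat} (h : chkRange lo n = true) :
    ∀ k, lo ≤ k → k < lo + n → ∀ j < k, ∀ i < j, chk3 i j k = true := by
  intro k h1 h2 j hj i hi
  have h3 := allb_spec h (k - lo) (by omega)
  have h4 : allb (fun j => allb (fun i => chk3 i j (lo + (k - lo))) j) (lo + (k - lo)) = true := h3
  have h5 : lo + (k - lo) = k := by omega
  rw [h5] at h4
  exact allb_spec (allb_spec h4 j hj) i hi

theorem chk3_all {i j k : Nat} (hij : i < j) (hjk : j < k) (hk : k < 64) : chk3 i j k = true := by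
  rcases Nat.lt_or_ge k 40 with h | h
  · exact range_spec chk_ok1 k (by omega) (by omega) j hjk i hij
  rcases Nat.lt_or_ge k 52 with h' | h'
  · exact range_spec chk_ok2 k h (by omega) j hjk i hij
  · exact range_spec chk_ok3 k h' (by omega) j hjk i hij

theorem key {i j k : Nat} (hij : i < j) (hjk : j < k) (hk : k < 64) :
    ((pos i j < pos i k ∧ pos j i < pos j k ∧ pos k i < pos k j) ∨
     (pos i k < pos i j ∧ pos j k < pos j i ∧ pos k j < pos k i)) ∧
    ((col i = col j ∧ col j = col k) ∨
      ¬ (Adj (pos i j) (pos i k) ∧ Adj (pos j i) (pos j k) ∧ Adj (pos k i) (pos k j))) := by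
  have h := chk3_all hij hjk hk
  unfold chk3 c3 at h
  simp only [band_iff, bor_iff, bnot_iff, blt_iff, beq_iff, adjb_iff] at h
  refine ⟨h.1, ?_⟩
  rcases h.2 with h2 | h2
  · left
    exact ⟨colb_eq (by omega) (by omega) h2.1, colb_eq (by omega) hk h2.2⟩
  · right; exact h2

theorem seq_spec {x p : Nat} (hx : x < 64) (hp : p < 63) :
    pos x (seq x p) = p ∧ seq x p < 64 ∧ seq x p ≠ x := by
  have h := allb_spec chkSeq_ok x hx
  rw [band_iff] at h
  have h2 := allb_spec h.1 p hp
  simp only [band_iff, bnot_iff, blt_iff, beq_iff] at h2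
  exact h2

theorem pos_le {x a : Nat} (hx : x < 64) (ha : a < 64) : pos x a ≤ 62 := by
  have h := allb_spec chkSeq_ok x hx
  rw [band_iff] at h
  have h2 := allb_spec h.2 a ha
  rwa [Nat.ble_eq] at h2

end Pool.Agent.Lib.MP_350a38_co
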